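import Mathlib

/-!
# URW Base: labels, labelled graphs, random lines, thick and noncrossing sets of darts

Problem MP_fc0f29_gt (Uryson width of a compact space and of its universal cover). Common
definitions for the parts Q (random lines), HOLES, COX (the Coxeter group of a polygon).

`V` is a finite set with an action of the labels: `nb v i` is the neighbour of `v` along the edge
with label `i`. A DART `(v, i)` is the vertex `v` together with the edge `i` along which one LEAVES
`v`. `c v` is the rotation of the lines at `v`: a line which arrives at `v` along the edge `a`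
leaves along `a + c v`; so the next dart of `(v, i)` is `(nb v i, i + c (nb v i))`.
-/

set_option autoImplicit false

namespace URW

/-- The labels: `D = 8 m + 1` is odd. -/
abbrev Lab (m : ℕ) : Type := ZMod (8 * m + 1)

/-- Cyclic distance to `0`. -/
def cd {m : ℕ} (i : Lab m) : ℕ := i.valMinAbs.natAbs

/-- The rotations: the labels at cyclic distance at least `m` from `0`. -/
abbrev Rot (m : ℕ) : Type := {i : Lab m // m ≤ cd i}

/-- Words with consecutive labels at cyclic distance at least `3`. -/
def NiceW {m : ℕ} (l : List (Lab m)) : Prop := l.IsChain fun i j => 3 ≤ cd (i - j)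

section lattice

variable {m : ℕ} {V : Type}

/-- The end of the walk from `v` with the labels `l`. -/
def walk (nb : V → Lab m → V) (v : V) (l : List (Lab m)) : V := l.foldl nb v

/-- `nb` is an action by involutions. -/
def Invol (nb : V → Lab m → V) : Prop := ∀ v i, nb (nb v i) i = v

/-- UNIQUENESS up to length `n`: nice walks of length `≤ n` from the same vertex with the same end
are equal. -/
def Uniq (nb : V → Lab m → V) (n : ℕ) : Prop :=
  ∀ (v : V) (l l' : List (Lab m)), NiceW l → NiceW l' → l.length ≤ n → l'.length ≤ n →
    walk nb v l = walk nb v l' → l = l'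

/-- Nice walks of length `≤ n` are geodesic. -/
def GeoW (nb : V → Lab m → V) (n : ℕ) : Prop :=
  ∀ (v : V) (l l' : List (Lab m)), NiceW l → l.length ≤ n → walk nb v l = walk nb v l' →
    l.length ≤ l'.length

/-- The next dart. -/
def nxt (nb : V → Lab m → V) (c : V → Rot m) (d : V × Lab m) : V × Lab m :=
  (nb d.1 d.2, d.2 + (c (nb d.1 d.2)).1)

/-- Every dart of `S` lies in a run of `r` darts of `S`. -/
def Thick (nb : V → Lab m → V) (c : V → Rot m) (r : ℕ) (S : Finset (V × Lab m)) : Prop :=
  ∀ d ∈ S, ∃ e : V × Lab m, (∃ j < r, (nxt nb c)^[j] e = d) ∧ ∀ k < r, (nxt nb c)^[k] e ∈ S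

/-- Noncrossing sets of darts. -/
def NonCr (c : V → Rot m) (S : Finset (V × Lab m)) : Prop :=
  ∀ (v : V) (i j : Lab m), (v, i) ∈ S → (v, j) ∈ S → i ≠ j → cd (c v).1 ≤ cd (i - j)

/-- Vertices of `H` are at distance more than `q` from each other. -/
def Sparse (nb : V → Lab m → V) (q : ℕ) (H : Finset V) : Prop :=
  ∀ v ∈ H, ∀ l : List (Lab m), l.length ≤ q → walk nb v l ∈ H → walk nb v l = v

end lattice

end URW
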