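import Pool.Agent.UWK.Main

/-!
# URW Sec1: the universal cover of the block complex

Section 1 of `UWneg_proof.txt` (proved in the folder `UWK`).
-/

set_option autoImplicit false

open UW1

namespace URW

/-- The block complex is connected. -/
theorem conn_blk {m : ℕ} (hm : 100 ≤ m) {V : Type} [Group V] [Finite V] (ρ : Wm m →* V)
    (hρ : Function.Surjective ρ) (n : ℕ) (hn : 100 ≤ n) (hinj : InjN ρ n) (c : V → Rot m)
    (H : Finset V) (hS : Sparse (nbG ρ) 10 H) : UWT.Conn (blk (nbG ρ) c (H : Set V)) :=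
  UWK.conn_main hm ρ hρ n hn hinj c H hS

open Classical in
/-- The universal cover of the block complex and its map to a graph. -/
theorem cover_blk {m : ℕ} (hm : 100 ≤ m) {V : Type} [Group V] [Finite V] (ρ : Wm m →* V)
    (_hρ : Function.Surjective ρ) (n L : ℕ) (hn : 100 ≤ n) (hL : 10 * L ≤ n) (hinj : InjN ρ n)
    (c : V → Rot m) (H : Finset V) (hS : Sparse (nbG ρ) 10 H)
    (hhit : ∀ d : V × Lab m, ∃ j < L, ((nxt (nbG ρ) c)^[j] d).1 ∈ H) :
    ∃ (V' T : Type) (K' : Complex V') (p : V' → {v : V // v ∉ (H : Set V)}) (φ : V' → T),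
      Nonempty V' ∧ UWT.Conn K' ∧ (∀ v, {w | UWT.Edge K' v w}.Finite) ∧ UWT.CohTrivial K' ∧
      UWT.IsCov K' (blk (nbG ρ) c (H : Set V)) p ∧ (∀ s ∈ K'.faces, (s.image φ).card ≤ 2) ∧
      ∀ v w, φ v = φ w → UWT.Near K' 98 v w :=
  UWK.cover_main hm ρ n L hn hL hinj c H hS hhit

end URW
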