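import Pool.Agent.URW.E.Main
import Pool.Agent.URW.S4.Main
import Pool.Agent.URW.S5.Main
import Pool.Agent.URW.B.Labels

/-!
# The final theorem

For every `n` there are a compact geodesic space `X` and a covering `π : Q → X` that is a local
isometry, where `Q` is simply connected, geodesic and has 1-width at most `1`, and the 1-width of
`X` is at least `n`.
-/

set_option autoImplicit false

open UW1
open scoped ENNReal

namespace URW

theorem answer (n : ℕ) :
    ∃ (X Q : Type) (_ : MetricSpace X) (_ : MetricSpace Q) (π : Q → X),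
      CompactSpace X ∧ Geodesic X ∧ SimplyConnectedSpace Q ∧ Geodesic Q ∧ IsCoveringMap π ∧
      LocIso π ∧ UWT.UWloc 1 Q ≤ 1 ∧ (n : ℝ≥0∞) ≤ UW 1 X :=
  answer_of (fun X v => X.cover v) (fun X s r S hS => X.sdeep_noncr s r S hS)
    (fun {m K n L} hm V _ _ ρ surj inj even big c H sparse hit _ h => by
      obtain ⟨X, h1, h2, h3, -, -, h4⟩ := exists_sys ρ c H n L K hm surj inj even big sparse hit h
      exact ⟨X, h1, h2, h3, h4⟩) n

end URW
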