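import Pool.Agent.UWT.Main
import Pool.Agent.UWW.Grp
import Pool.Agent.URW.Q.Lab

/-!
# URW Sys: the group, its finite quotients, the block complex

* `Wm m`: the right angled Coxeter group of the polygon with `8 m + 1` sides.
* `nbG ρ v i = v * ρ (s i)`: the labelled graph of a quotient `ρ : Wm m →* G` (also for `G = Wm m`).
* `InjN ρ n`: injective on the ball of radius `n` (in the form: trivial short kernel).
* `blk nb c H`: the block complex. Its vertices are the vertices not in `H` (not holes), its faces
  are the nonempty subsets of the blocks; the blocks are the squares without holes and the runs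
  (vertex sets of pieces of lines) without holes.
-/

set_option autoImplicit false

open UW1

namespace URW

/-- Commuting labels: neighbours in the polygon. -/
def cm (m : ℕ) (i j : Lab m) : Prop := cd (i - j) = 1

instance (m : ℕ) : DecidableRel (cm m) := fun i j => inferInstanceAs (Decidable (cd (i - j) = 1))

instance (m : ℕ) : UWW.Com (cm m) where
  symm a b h := by
    have h1 : cd (b - a) = cd (a - b) := by rw [← cd_neg, neg_sub]
    exact h1.trans h
  irrefl a h := by
    unfold cm at h
    rw [sub_self, cd_zero] at h
    exact absurd h (by norm_num)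

/-- The right angled Coxeter group of the polygon with `8 m + 1` sides. -/
abbrev Wm (m : ℕ) : Type := UWW.W (cm m)

/-- The generator with label `i`. -/
abbrev sg {m : ℕ} (i : Lab m) : Wm m := UWW.s (cm m) i

/-- The labelled graph of a quotient of `Wm m`. -/
def nbG {m : ℕ} {G : Type} [Group G] (ρ : Wm m →* G) (v : G) (i : Lab m) : G := v * ρ (sg i)

variable {m : ℕ} {V : Type}

/-- Injective on the ball of radius `n`. -/
def InjN [Group V] (ρ : Wm m →* V) (n : ℕ) : Prop :=
  ∀ l : List (Lab m), l.length ≤ n → ρ (UWW.pr (cm m) l) = 1 → UWW.pr (cm m) l = 1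

/-- The corners of the square at `v` between the edges `i` and `i + 1`. -/
def sqv (nb : V → Lab m → V) (v : V) (i : Lab m) : Set V :=
  {v, nb v i, nb v (i + 1), nb (nb v i) (i + 1)}

/-- The vertices of the run of the line with the darts `e, nxt e, ..., nxt^[k] e`. -/
def runv (nb : V → Lab m → V) (c : V → Rot m) (e : V × Lab m) (k : ℕ) : Set V :=
  {x | ∃ j ≤ k, x = ((nxt nb c)^[j] e).1}

/-- Blocks: squares and runs without holes. -/
def IsBlk (nb : V → Lab m → V) (c : V → Rot m) (H : Set V) (B : Set V) : Prop :=
  (∀ x ∈ B, x ∉ H) ∧ ((∃ v i, B = sqv nb v i) ∨ ∃ e k, B = runv nb c e k)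

/-- The block complex. -/
def blk (nb : V → Lab m → V) (c : V → Rot m) (H : Set V) : Complex {v : V // v ∉ H} where
  faces := {s | s.Nonempty ∧ ∃ B, IsBlk nb c H B ∧ ∀ x ∈ s, (x : V) ∈ B}
  nonempty_of_mem := fun _ h => h.1
  down_closed := fun _ h _ ht hne => ⟨hne, by
    obtain ⟨B, hB, hs⟩ := h.2
    exact ⟨B, hB, fun x hx => hs x (ht hx)⟩⟩

end URW
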